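import Mathlib

namespace Pool.Agent.Results.MP_67c61c_pr.Lazy
open Matrix
open scoped RealInnerProductSpace

variable {d : ℕ}

/-- time reversal `M*` -/
noncomputable def rev (π : Fin d → ℝ) (M : Matrix (Fin d) (Fin d) ℝ) : Matrix (Fin d) (Fin d) ℝ :=
  Matrix.of fun i j => π j * M j i / π i

/-- multiplicative reversiblization `M† = M* M` -/
noncomputable def dag (π : Fin d → ℝ) (M : Matrix (Fin d) (Fin d) ℝ) : Matrix (Fin d) (Fin d) ℝ :=
  rev π M * M

/-- second largest eigenvalue, counted with multiplicity -/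
noncomputable def lam2 (A : Matrix (Fin d) (Fin d) ℝ) : ℝ :=
  (A.charpoly.roots.sort (· ≥ ·)).getD 1 0

/-- pseudo spectral gap -/
noncomputable def gps (π : Fin d → ℝ) (M : Matrix (Fin d) (Fin d) ℝ) : ℝ :=
  ⨆ k : ℕ, (1 - lam2 (dag π (M ^ (k + 1)))) / (k + 1)

/-- lazy version -/
def lazy (α : ℝ) (M : Matrix (Fin d) (Fin d) ℝ) : Matrix (Fin d) (Fin d) ℝ :=
  α • (1 : Matrix (Fin d) (Fin d) ℝ) + (1 - α) • M

section abstract
variable {E : Type} [NormedAddCommGroup E] [InnerProductSpace ℝ E] [FiniteDimensional ℝ E]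
  {T : E →ₗ[ℝ] E} (hT : T.IsSymmetric) {n : ℕ} (hn : Module.finrank ℝ E = n) (h2 : 1 < n)

lemma upper (u : E) (hu : u ≠ 0) (hTu : T u = u) (hc : ∀ x, ⟪x, T x⟫ ≤ ‖x‖ ^ 2) (x : E)
    (hx : ⟪u, x⟫ = 0) : ⟪x, T x⟫ ≤ hT.eigenvalues hn ⟨1, h2⟩ * ‖x‖ ^ 2 := by
  by_cases h1 : 1 ≤ hT.eigenvalues hn ⟨1, h2⟩
  · nlinarith [hc x, sq_nonneg ‖x‖]
  push Not at h1
  set b := hT.eigenvectorBasis hn
  have hle : ∀ i : Fin n, i ≠ ⟨0, by omega⟩ → hT.eigenvalues hn i ≤ hT.eigenvalues hn ⟨1, h2⟩ := by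
    intro i hi
    refine hT.eigenvalues_antitone hn ?_
    have : i.val ≠ 0 := fun h => hi (Fin.ext h)
    change 1 ≤ i.val
    omega
  have hu0 : ∀ i : Fin n, i ≠ ⟨0, by omega⟩ → b.repr u i = 0 := by
    intro i hi
    have h3 := hT.eigenvectorBasis_apply_self_apply hn u i
    rw [hTu] at h3
    have h4 := hle i hi
    change b.repr u i = hT.eigenvalues hn i * b.repr u i at h3
    have : (1 - hT.eigenvalues hn i) * b.repr u i = 0 := by linarith
    exact (mul_eq_zero.1 this).resolve_left (by linarith)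
  have hu1 : b.repr u ⟨0, by omega⟩ ≠ 0 := by
    intro h
    apply hu
    apply b.repr.injective
    ext i
    by_cases hi : i = ⟨0, by omega⟩
    · simp [hi, h]
    · simp [hu0 i hi]
  have hx0 : b.repr x ⟨0, by omega⟩ = 0 := by
    rw [← b.repr.inner_map_map, PiLp.inner_apply, Finset.sum_eq_single ⟨0, by omega⟩] at hx
    · simpa [hu1] using hx
    · intro i _ hi; simp [hu0 i hi]
    · simp
  rw [← b.repr.inner_map_map, ← b.repr.norm_map x, EuclideanSpace.real_norm_sq_eq,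
    PiLp.inner_apply, Finset.mul_sum]
  refine Finset.sum_le_sum fun i _ => ?_
  have h3 : b.repr (T x) i = hT.eigenvalues hn i * b.repr x i :=
    hT.eigenvectorBasis_apply_self_apply hn x i
  rw [h3]
  by_cases hi : i = ⟨0, by omega⟩
  · simp [hi, hx0]
  · have := hle i hi
    simp only [RCLike.inner_apply, conj_trivial]
    nlinarith [sq_nonneg (b.repr x i)]

lemma lower (u : E) : ∃ x : E, x ≠ 0 ∧ ⟪u, x⟫ = 0 ∧
    hT.eigenvalues hn ⟨1, h2⟩ * ‖x‖ ^ 2 ≤ ⟪x, T x⟫ := by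
  set b := hT.eigenvectorBasis hn
  set i0 : Fin n := ⟨0, by omega⟩
  set i1 : Fin n := ⟨1, h2⟩
  have h01 : i0 ≠ i1 := by simp [i0, i1]
  obtain ⟨p, q, hpq, h⟩ : ∃ p q : ℝ, 0 < p ^ 2 + q ^ 2 ∧ p * ⟪u, b i0⟫ + q * ⟪u, b i1⟫ = 0 := by
    by_cases h0 : ⟪u, b i0⟫ = 0
    · exact ⟨1, 0, by norm_num, by simp [h0]⟩
    · exact ⟨-⟪u, b i1⟫, ⟪u, b i0⟫, by positivity, by ring⟩
  have e00 : ⟪b i0, b i0⟫ = 1 := by simp
  have e11 : ⟪b i1, b i1⟫ = 1 := by simp
  have e01 : ⟪b i0, b i1⟫ = 0 := b.orthonormal.2 h01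
  have e10 : ⟪b i1, b i0⟫ = 0 := b.orthonormal.2 h01.symm
  have hn2 : ‖p • b i0 + q • b i1‖ ^ 2 = p ^ 2 + q ^ 2 := by
    rw [← real_inner_self_eq_norm_sq]
    simp only [inner_add_left, inner_add_right, inner_smul_left, inner_smul_right, e00, e11, e01,
      e10, conj_trivial]
    ring
  refine ⟨p • b i0 + q • b i1, fun h0 => ?_, ?_, ?_⟩
  · rw [h0] at hn2
    simp at hn2
    linarith
  · simpa [inner_add_right, inner_smul_right] using h
  · have t0 : T (b i0) = hT.eigenvalues hn i0 • b i0 := hT.apply_eigenvectorBasis hn i0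
    have t1 : T (b i1) = hT.eigenvalues hn i1 • b i1 := hT.apply_eigenvectorBasis hn i1
    have hle : hT.eigenvalues hn i1 ≤ hT.eigenvalues hn i0 :=
      hT.eigenvalues_antitone hn (show (0 : ℕ) ≤ 1 by norm_num)
    rw [hn2, map_add, map_smul, map_smul, t0, t1]
    simp only [inner_add_left, inner_add_right, inner_smul_left, inner_smul_right, e00, e11, e01,
      e10, conj_trivial]
    nlinarith [sq_nonneg p]

end abstract

noncomputable def sym (π : Fin d → ℝ) (N : Matrix (Fin d) (Fin d) ℝ) : Matrix (Fin d) (Fin d) ℝ :=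
  diagonal (fun i => √(π i)) * N * diagonal fun i => (√(π i))⁻¹

noncomputable def op (π : Fin d → ℝ) (N : Matrix (Fin d) (Fin d) ℝ) :
    Module.End ℝ (EuclideanSpace ℝ (Fin d)) := toEuclideanLin (sym π N)

noncomputable def rt (π : Fin d → ℝ) : EuclideanSpace ℝ (Fin d) := WithLp.toLp 2 fun i => √(π i)

variable {π : Fin d → ℝ} (hπ : ∀ i, 0 < π i)
include hπ

lemma dd : (diagonal fun i => (√(π i))⁻¹) * diagonal (fun i => √(π i)) = 1 := by
  rw [diagonal_mul_diagonal, ← diagonal_one]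
  congr 1
  funext i
  exact inv_mul_cancel₀ (Real.sqrt_pos.2 (hπ i)).ne'

lemma sym_mul (A B : Matrix (Fin d) (Fin d) ℝ) : sym π (A * B) = sym π A * sym π B := by
  simp only [sym, Matrix.mul_assoc]
  rw [← Matrix.mul_assoc (diagonal fun i => (√(π i))⁻¹), dd hπ, Matrix.one_mul]

lemma op_mul (A B : Matrix (Fin d) (Fin d) ℝ) : op π (A * B) = op π A * op π B := by
  ext1 x
  simp [op, sym_mul hπ, toLpLin_apply]

lemma op_lazy (α : ℝ) (M : Matrix (Fin d) (Fin d) ℝ) (x : EuclideanSpace ℝ (Fin d)) :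
    op π (lazy α M) x = α • x + (1 - α) • op π M x := by
  have : sym π (lazy α M) = α • (1 : Matrix (Fin d) (Fin d) ℝ) + (1 - α) • sym π M := by
    simp only [sym, lazy, Matrix.mul_add, Matrix.add_mul, Matrix.mul_smul, Matrix.smul_mul,
      Matrix.mul_one]
    rw [mul_eq_one_comm.1 (dd hπ)]
  simp [op, this]

lemma sym_dag (N : Matrix (Fin d) (Fin d) ℝ) : sym π (dag π N) = (sym π N)ᵀ * sym π N := by
  rw [dag, sym_mul hπ]
  congr 1
  ext i j
  have h1 := Real.sqrt_pos.2 (hπ i)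
  have h2 := Real.sqrt_pos.2 (hπ j)
  simp only [sym, rev, mul_diagonal, diagonal_mul, of_apply, transpose_apply]
  rw [← Real.mul_self_sqrt (hπ i).le, ← Real.mul_self_sqrt (hπ j).le]
  simp only [Real.sqrt_mul_self h1.le, Real.sqrt_mul_self h2.le]
  field_simp

omit hπ in
lemma inner_dag (N : Matrix (Fin d) (Fin d) ℝ) (x : EuclideanSpace ℝ (Fin d)) :
    ⟪x, toEuclideanLin ((sym π N)ᵀ * sym π N) x⟫ = ‖op π N x‖ ^ 2 := by
  rw [← real_inner_self_eq_norm_sq]
  simp only [op, toLpLin_apply, EuclideanSpace.inner_eq_star_dotProduct, star_trivial]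
  rw [← mulVec_mulVec, dotProduct_comm, dotProduct_mulVec, vecMul_transpose]

lemma contr {N : Matrix (Fin d) (Fin d) ℝ} (hN : N ∈ rowStochastic ℝ (Fin d)) (hs : π ᵥ* N = π)
    (x : EuclideanSpace ℝ (Fin d)) : ‖op π N x‖ ^ 2 ≤ ‖x‖ ^ 2 := by
  rw [EuclideanSpace.real_norm_sq_eq, EuclideanSpace.real_norm_sq_eq]
  set f : Fin d → ℝ := fun j => (√(π j))⁻¹ * x j with hf
  have h1 : ∀ i, (op π N x) i ^ 2 ≤ π i * ∑ j, N i j * f j ^ 2 := by
    intro i
    have e : (op π N x) i = √(π i) * ∑ j, N i j * f j := by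
      simp only [op, toLpLin_apply, sym, ← mulVec_mulVec, mulVec_diagonal]
      simp only [mulVec, dotProduct, hf]
      congr 1
      refine Finset.sum_congr rfl fun j _ => ?_
      congr 1
      exact mulVec_diagonal _ _ j
    rw [e, mul_pow, Real.sq_sqrt (hπ i).le]
    refine mul_le_mul_of_nonneg_left ?_ (hπ i).le
    have := Real.pow_arith_mean_le_arith_mean_pow_of_even Finset.univ (N i) f
      (fun j _ => nonneg_of_mem_rowStochastic hN) (sum_row_of_mem_rowStochastic hN i) even_two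
    exact this
  refine (Finset.sum_le_sum fun i _ => h1 i).trans (le_of_eq ?_)
  simp_rw [Finset.mul_sum, ← mul_assoc]
  rw [Finset.sum_comm]
  refine Finset.sum_congr rfl fun j _ => ?_
  have h2 := congrFun hs j
  simp only [vecMul, dotProduct] at h2
  rw [← Finset.sum_mul, h2, hf]
  simp only [mul_pow, inv_pow, Real.sq_sqrt (hπ j).le]
  field_simp [(hπ j).ne']

lemma key (hd : 2 ≤ d) {N : Matrix (Fin d) (Fin d) ℝ} (hN : N ∈ rowStochastic ℝ (Fin d))
    (hs : π ᵥ* N = π) :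
    (∀ x, ⟪rt π, x⟫ = 0 → ‖op π N x‖ ^ 2 ≤ lam2 (dag π N) * ‖x‖ ^ 2) ∧
    ∃ x, x ≠ 0 ∧ ⟪rt π, x⟫ = 0 ∧ lam2 (dag π N) * ‖x‖ ^ 2 ≤ ‖op π N x‖ ^ 2 := by
  have hH : ((sym π N)ᵀ * sym π N).IsHermitian := by
    simpa using isHermitian_conjTranspose_mul_self (sym π N)
  have h2 : 1 < Fintype.card (Fin d) := by simp; omega
  have hl : lam2 (dag π N) = hH.eigenvalues₀ ⟨1, h2⟩ := by
    have e : (dag π N).charpoly = ((sym π N)ᵀ * sym π N).charpoly := by
      rw [← sym_dag hπ, sym, Matrix.mul_assoc, charpoly_mul_comm, Matrix.mul_assoc, dd hπ,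
        Matrix.mul_one]
    have := hH.sort_roots_charpoly_eq_eigenvalues₀
    simp only [RCLike.re_to_real, Multiset.map_id'] at this
    rw [lam2, e, this, List.getD_eq_getElem _ _ (by simpa using h2)]
    simp
  have hT := isSymmetric_toEuclideanLin_iff.mpr hH
  rw [hl]
  constructor
  · intro x hx
    rw [← inner_dag]
    refine upper hT finrank_euclideanSpace h2 (rt π) ?_ ?_ ?_ x hx
    · intro h0
      have := congrArg (fun v : EuclideanSpace ℝ (Fin d) => v ⟨0, by omega⟩) h0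
      exact (Real.sqrt_pos.2 (hπ _)).ne' (by simpa [rt] using this)
    · have e1 : (diagonal fun i => (√(π i))⁻¹) *ᵥ (fun i => √(π i)) = 1 := by
        funext i
        rw [mulVec_diagonal]
        exact inv_mul_cancel₀ (Real.sqrt_pos.2 (hπ i)).ne'
      have e2 : rev π N *ᵥ 1 = 1 := by
        funext i
        have h3 := congrFun hs i
        simp only [vecMul, dotProduct] at h3
        simp only [rev, mulVec, dotProduct, of_apply, Pi.one_apply, mul_one, ← Finset.sum_div, h3]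
        exact div_self (hπ i).ne'
      rw [← sym_dag hπ]
      ext i
      simp only [rt, toLpLin_apply, sym, dag, ← mulVec_mulVec, e1,
        one_vecMul_of_mem_rowStochastic hN, e2, mulVec_diagonal, Pi.one_apply, mul_one]
    · intro y
      rw [inner_dag]
      exact contr hπ hN hs y
  · obtain ⟨x, h3, h4, h5⟩ := lower hT finrank_euclideanSpace h2 (rt π)
    exact ⟨x, h3, h4, by rw [← inner_dag]; exact h5⟩

lemma split {M : Matrix (Fin d) (Fin d) ℝ} (hM : M ∈ rowStochastic ℝ (Fin d)) (hs : π ᵥ* M = π)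
    {α : ℝ} (h0 : 0 ≤ α) (h1 : α ≤ 1) (k : ℕ) (x : EuclideanSpace ℝ (Fin d)) :
    ‖op π (M ^ k) x‖ ≤ ‖x‖ ∧
    ‖op π (lazy α M ^ k) x - (1 - α) ^ k • op π (M ^ k) x‖ ≤ (1 - (1 - α) ^ k) * ‖x‖ := by
  have hc : ∀ y, ‖op π M y‖ ≤ ‖y‖ := fun y =>
    (pow_le_pow_iff_left₀ (norm_nonneg _) (norm_nonneg _) two_ne_zero).1 (contr hπ hM hs y)
  have hb : 0 ≤ 1 - α := by linarith
  induction k with
  | zero =>
    have : op π 1 x = x := by
      simp [op, sym, mul_eq_one_comm.1 (dd hπ)]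
    simp [this]
  | succ k ih =>
    rw [pow_succ', pow_succ', op_mul hπ, op_mul hπ, Module.End.mul_apply, Module.End.mul_apply]
    refine ⟨(hc _).trans ih.1, ?_⟩
    set y := op π (M ^ k) x
    set z := op π (lazy α M ^ k) x
    have e : op π (lazy α M) z - (1 - α) ^ (k + 1) • op π M y =
        α • (z - (1 - α) ^ k • y) + (1 - α) • op π M (z - (1 - α) ^ k • y) +
          (α * (1 - α) ^ k) • y := by
      rw [op_lazy hπ, map_sub, map_smul]
      module
    rw [e]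
    refine (norm_add₃_le ..).trans ?_
    rw [norm_smul, norm_smul, norm_smul, Real.norm_of_nonneg h0, Real.norm_of_nonneg hb,
      Real.norm_of_nonneg (by positivity)]
    have h3 := hc (z - (1 - α) ^ k • y)
    have h4 := mul_le_mul_of_nonneg_left (h3.trans ih.2) hb
    have h5 := mul_le_mul_of_nonneg_left ih.2 h0
    have h6 := mul_le_mul_of_nonneg_left ih.1 (show 0 ≤ α * (1 - α) ^ k by positivity)
    rw [pow_succ]
    linarith

omit hπ in
lemma pow_stat {M : Matrix (Fin d) (Fin d) ℝ} (hs : π ᵥ* M = π) (k : ℕ) : π ᵥ* M ^ k = π := by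
  induction k with
  | zero => simp
  | succ k ih => rw [pow_succ, ← vecMul_vecMul, ih, hs]

lemma range (hd : 2 ≤ d) {N : Matrix (Fin d) (Fin d) ℝ} (hN : N ∈ rowStochastic ℝ (Fin d))
    (hs : π ᵥ* N = π) : 0 ≤ lam2 (dag π N) ∧ lam2 (dag π N) ≤ 1 := by
  obtain ⟨h1, x, h2, h3, h4⟩ := key hπ hd hN hs
  have h5 : 0 < ‖x‖ ^ 2 := by positivity
  have h6 := h1 x h3
  have h7 := contr hπ hN hs x
  have h8 := sq_nonneg ‖op π N x‖
  constructor
  · by_contra h
    nlinarith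
  · by_contra h
    nlinarith

omit hπ in
theorem result : ∃ f : ℝ → ℝ → ℝ, (∀ α ∈ Set.Ioo (0 : ℝ) 1, ∀ g ∈ Set.Ioc (0 : ℝ) 1, 0 < f α g) ∧
    ∀ d : ℕ, 2 ≤ d → ∀ (M : Matrix (Fin d) (Fin d) ℝ) (π : Fin d → ℝ),
      M ∈ rowStochastic ℝ (Fin d) → (∀ i, 0 < π i) → ∑ i, π i = 1 → π ᵥ* M = π →
        ∀ α ∈ Set.Ioo (0 : ℝ) 1, f α (gps π M) ≤ gps π (lazy α M) := by
  refine ⟨fun α g => (1 - α) ^ (2 / g) * g / 4, fun α hα g hg => ?_, ?_⟩
  · have := hg.1
    have : 0 < 1 - α := by linarith [hα.2]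
    positivity
  intro d hd M π hM hπ _ hs α hα
  have hb : 0 < 1 - α := by linarith [hα.2]
  have hL : lazy α M ∈ rowStochastic ℝ (Fin d) :=
    convex_rowStochastic (Submonoid.one_mem _) hM hα.1.le hb.le (by ring)
  have hsL : π ᵥ* lazy α M = π := by
    rw [lazy, vecMul_add, vecMul_smul, vecMul_smul, vecMul_one, hs]
    module
  have bd : ∀ {N : Matrix (Fin d) (Fin d) ℝ}, N ∈ rowStochastic ℝ (Fin d) → π ᵥ* N = π →
      BddAbove (Set.range fun k : ℕ => (1 - lam2 (dag π (N ^ (k + 1)))) / (k + 1)) := by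
    intro N hN hsN
    refine ⟨1, ?_⟩
    rintro _ ⟨k, rfl⟩
    have := (range hπ hd (Submonoid.pow_mem _ hN (k + 1)) (pow_stat hsN _)).1
    have hk : (0 : ℝ) ≤ k := k.cast_nonneg
    simp only
    rw [div_le_one (by positivity)]
    linarith
  by_cases hg : gps π M ≤ 0
  · refine le_trans ?_ (le_ciSup (bd hL hsL) 0)
    have h1 := (range hπ hd (Submonoid.pow_mem _ hL (0 + 1)) (pow_stat hsL _)).2
    have h2 : 0 ≤ (1 - α) ^ (2 / gps π M) := by positivity
    simp only [Nat.cast_zero, zero_add, div_one] at h1 ⊢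
    nlinarith
  push Not at hg
  obtain ⟨k, hk⟩ := exists_lt_of_lt_ciSup (show gps π M / 2 < gps π M by linarith)
  refine le_trans ?_ (le_ciSup (bd hL hsL) k)
  have hMk := Submonoid.pow_mem _ hM (k + 1)
  obtain ⟨c0, c1⟩ := range hπ hd hMk (pow_stat hs _)
  obtain ⟨-, x, hx0, hx1, hx2⟩ := key hπ hd (Submonoid.pow_mem _ hL (k + 1)) (pow_stat hsL _)
  have h1 := (key hπ hd hMk (pow_stat hs _)).1 x hx1
  have h2 := (split hπ hM hs hα.1.le hα.2.le (k + 1) x).2
  set c := lam2 (dag π (M ^ (k + 1)))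
  set y := op π (M ^ (k + 1)) x
  set z := op π (lazy α M ^ (k + 1)) x
  set β := (1 - α) ^ (k + 1) with hβ
  have hβ0 : 0 < β := by positivity
  have hβ1 : β ≤ 1 := pow_le_one₀ hb.le (by linarith [hα.1])
  have hxp : 0 < ‖x‖ := norm_pos_iff.2 hx0
  have h3 : ‖y‖ ≤ (1 + c) / 2 * ‖x‖ := by
    refine (pow_le_pow_iff_left₀ (norm_nonneg _) (by positivity) two_ne_zero).1 (h1.trans ?_)
    rw [mul_pow]
    exact mul_le_mul_of_nonneg_right (by nlinarith [sq_nonneg (1 - c)]) (sq_nonneg _)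
  have h4 : ‖z‖ ≤ (1 - β * (1 - c) / 2) * ‖x‖ := by
    have := norm_add_le (z - β • y) (β • y)
    rw [sub_add_cancel, norm_smul, Real.norm_of_nonneg hβ0.le] at this
    nlinarith [mul_le_mul_of_nonneg_left h3 hβ0.le]
  have h5 : 0 ≤ β * (1 - c) / 2 := by
    have : 0 ≤ 1 - c := by linarith
    positivity
  have h6 : β * (1 - c) / 2 ≤ 1 := by nlinarith
  have h7 : lam2 (dag π (lazy α M ^ (k + 1))) ≤ 1 - β * (1 - c) / 2 := by
    have h8 : ‖z‖ ^ 2 ≤ (1 - β * (1 - c) / 2) * ‖x‖ ^ 2 := by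
      refine (pow_le_pow_left₀ (norm_nonneg _) h4 2).trans ?_
      rw [mul_pow]
      exact mul_le_mul_of_nonneg_right (by nlinarith) (sq_nonneg _)
    exact le_of_mul_le_mul_right (hx2.trans h8) (by positivity)
  have hk1 : (0 : ℝ) < k + 1 := by positivity
  rw [lt_div_iff₀ hk1] at hk
  have h9 : (1 - α) ^ (2 / gps π M) ≤ β := by
    rw [hβ, ← Real.rpow_natCast]
    refine Real.rpow_le_rpow_of_exponent_ge hb (by linarith [hα.1]) ?_
    rw [le_div_iff₀ hg]
    push_cast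
    linarith
  rw [le_div_iff₀ hk1]
  have h10 : (1 - α) ^ (2 / gps π M) * gps π M / 4 * (k + 1) ≤ β * (gps π M / 2 * (k + 1)) / 2 := by
    have := mul_le_mul_of_nonneg_right h9 (show 0 ≤ gps π M / 4 * (k + 1) by positivity)
    linarith
  have h11 := mul_le_mul_of_nonneg_left hk.le hβ0.le
  linarith

end Pool.Agent.Results.MP_67c61c_pr.Lazy
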